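import Pool.Agent.W275.FML.Stm

/-!
# Multiples in the kernel of the reduction
-/

set_option autoImplicit false

namespace Pool.Agent.W791.FML

open WeierstrassCurve Pool.Agent.H901R3.MS Pool.Agent.W275.FM Pool.Agent.W490.FM.KEY
open Pool.Agent.W275.FML

theorem main : S_TADD → S_TMUL := by
  intro hT K k _ _ _ v a b h2 P hP
  obtain ⟨h1, hadd⟩ := hT K k v a b h2
  have key : ∀ j : ℕ, E1 v (j • P) ∧ ∃ g ∈ v.A, v.r g = 0 ∧
      tt (j • P) = j * tt P + tt P ^ 2 * g := by
    intro j
    induction j with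
    | zero =>
      rw [zero_smul]
      refine ⟨?_, 0, v.A.zero_mem, ?_, ?_⟩
      · intro x y h hh
        exact absurd hh.symm (Affine.Point.some_ne_zero h)
      · exact v.r_zero
      · have : tt (0 : Pt (a : K) (b : K)) = 0 := rfl
        rw [this]; simp
    | succ j ih =>
      obtain ⟨hE, g, hgA, hg0, hg⟩ := ih
      obtain ⟨hE', g', hg'A, hg'0, hg'⟩ := hadd (j • P) P hE hP
      obtain ⟨htA, ht0, -, -⟩ := h1 P hP
      rw [succ_nsmul]
      have hjA : (j : K) ∈ v.A := natCast_mem v.A j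
      have htg : tt P * g ∈ v.A := v.A.mul_mem htA hgA
      have hs : (j : K) + tt P * g ∈ v.A := v.A.add_mem hjA htg
      have hm : ((j : K) + tt P * g) * g' ∈ v.A := v.A.mul_mem hs hg'A
      refine ⟨hE', g + ((j : K) + tt P * g) * g', v.A.add_mem hgA hm, ?_, ?_⟩
      · rw [v.r_add hgA hm, v.r_mul hs hg'A, hg0, hg'0, mul_zero, add_zero]
      · rw [hg', hg]
        push_cast
        ring
  refine ⟨key, ?_⟩
  intro n hn hP0 hnP hmem
  obtain ⟨-, g, hgA, hg0, hg⟩ := key n
  obtain ⟨htA, ht0, htz, -⟩ := h1 P hP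
  have ht : tt P ≠ 0 := fun h => hP0 (htz h)
  rw [hnP] at hg
  have hz : tt (0 : Pt (a : K) (b : K)) = 0 := rfl
  rw [hz] at hg
  have hng : (n : K) = -(tt P * g) := by
    have : tt P * ((n : K) + tt P * g) = 0 := by rw [hg]; ring
    rcases mul_eq_zero.mp this with h | h
    · exact absurd h ht
    · exact eq_neg_of_add_eq_zero_left h
  have hone : g * (tt P / n) = -1 := by
    rw [mul_div_assoc']
    rw [div_eq_iff hn, hng]
    ring
  have h3 := v.r_mul hgA hmem
  rw [hone, hg0, zero_mul, v.r_neg v.A.one_mem, v.r_one] at h3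
  exact one_ne_zero (neg_eq_zero.mp h3)

end Pool.Agent.W791.FML
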